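import Pool.Agent.E8helper16.TP.StmA

/-!
# Project TP, piece TP-6 (GOOD)
-/

set_option autoImplicit false

namespace Pool.Agent.E8helper7.TP

open Finset
open Pool.Agent.E8helper16.TP
open scoped Classical

/-- the number of pairs of residues with a property -/
noncomputable def cnt (p : ℕ) (P : ℕ → ℕ → Prop) : ℕ :=
  ((range p ×ˢ range p).filter (fun r => P r.1 r.2)).card

lemma bad_eq (Q : ℕ → ℕ → ℕ → Prop) (p : ℕ) : bad Q p = cnt p (Q p) := rfl

/-- pairs of residues in which the second one determines the first one -/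
lemma card_fst {p : ℕ} {P : ℕ → ℕ → Prop}
    (h : ∀ x x' y, x < p → x' < p → P x y → P x' y → x = x') : cnt p P ≤ p := by
  unfold cnt
  calc ((range p ×ˢ range p).filter (fun r => P r.1 r.2)).card ≤ (range p).card := by
        refine Finset.card_le_card_of_injOn (fun r => r.2) ?_ ?_
        · intro r hr
          rw [Finset.mem_coe, mem_filter, mem_product] at hr
          exact hr.1.2
        · intro r hr r' hr' he
          rw [Finset.mem_coe, mem_filter, mem_product, mem_range, mem_range] at hr hr'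
          have he' : r.2 = r'.2 := he
          refine Prod.ext (h r.1 r'.1 r.2 hr.1.1 hr'.1.1 hr.2 ?_) he'
          rw [he']
          exact hr'.2
    _ = p := card_range p

/-- pairs of residues in which the first one determines the second one -/
lemma card_snd {p : ℕ} {P : ℕ → ℕ → Prop}
    (h : ∀ x y y', y < p → y' < p → P x y → P x y' → y = y') : cnt p P ≤ p := by
  unfold cnt
  calc ((range p ×ˢ range p).filter (fun r => P r.1 r.2)).card ≤ (range p).card := by
        refine Finset.card_le_card_of_injOn (fun r => r.1) ?_ ?_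
        · intro r hr
          rw [Finset.mem_coe, mem_filter, mem_product] at hr
          exact hr.1.1
        · intro r hr r' hr' he
          rw [Finset.mem_coe, mem_filter, mem_product, mem_range, mem_range] at hr hr'
          have he' : r.1 = r'.1 := he
          refine Prod.ext he' (h r.1 r.2 r'.2 hr.1.2 hr'.1.2 hr.2 ?_)
          rw [he']
          exact hr'.2
    _ = p := card_range p

lemma uniq {p x x' : ℕ} {c : ℤ} (hx : x < p) (hx' : x' < p) (h : (p : ℤ) ∣ (x : ℤ) + c)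
    (h' : (p : ℤ) ∣ (x' : ℤ) + c) : x = x' := by
  have h1 : (p : ℤ) ∣ (x : ℤ) - x' := by
    have := dvd_sub h h'
    rwa [add_sub_add_right_eq_sub] at this
  have h2 : (x : ℤ) - x' = 0 := by
    apply Int.eq_zero_of_abs_lt_dvd h1
    rw [abs_lt]
    constructor <;> omega
  omega

lemma mem_cnt {p : ℕ} {P : ℕ → ℕ → Prop} {r : ℕ × ℕ} :
    r ∈ (range p ×ˢ range p).filter (fun r => P r.1 r.2) ↔ r ∈ range p ×ˢ range p ∧ P r.1 r.2 :=
  mem_filter

lemma cnt_or (p : ℕ) (P P' : ℕ → ℕ → Prop) :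
    cnt p (fun x y => P x y ∨ P' x y) ≤ cnt p P + cnt p P' := by
  unfold cnt
  refine le_trans (card_le_card ?_) (card_union_le _ _)
  intro r hr
  have h1 := (mem_cnt (P := fun x y => P x y ∨ P' x y)).1 hr
  rw [mem_union, mem_filter, mem_filter]
  tauto

lemma cnt_congr (p : ℕ) {P P' : ℕ → ℕ → Prop} (h : ∀ x y, P x y ↔ P' x y) :
    cnt p P = cnt p P' := by
  have e : P = P' := by
    funext x y
    exact propext (h x y)
  rw [e]

/-- the union bound for six conditions -/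
lemma six {p : ℕ} {P1 P2 P3 P4 P5 P6 : ℕ → ℕ → Prop} (h1 : cnt p P1 ≤ p) (h2 : cnt p P2 ≤ p)
    (h3 : cnt p P3 ≤ p) (h4 : cnt p P4 ≤ p) (h5 : cnt p P5 ≤ p) (h6 : cnt p P6 ≤ p) :
    cnt p (fun x y => P1 x y ∨ P2 x y ∨ P3 x y ∨ P4 x y ∨ P5 x y ∨ P6 x y) ≤ 6 * p := by
  have u1 := cnt_or p P1 (fun x y => P2 x y ∨ P3 x y ∨ P4 x y ∨ P5 x y ∨ P6 x y)
  have u2 := cnt_or p P2 (fun x y => P3 x y ∨ P4 x y ∨ P5 x y ∨ P6 x y)
  have u3 := cnt_or p P3 (fun x y => P4 x y ∨ P5 x y ∨ P6 x y)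
  have u4 := cnt_or p P4 (fun x y => P5 x y ∨ P6 x y)
  have u5 := cnt_or p P5 P6
  omega

lemma cnt_fst {p : ℕ} (c : ℕ → ℕ → ℤ) (hc : ∀ x x' y, c x y - x = c x' y - x') :
    cnt p (fun x y => (p : ℤ) ∣ c x y) ≤ p := by
  refine card_fst fun x x' y hx hx' h1 h2 => ?_
  refine uniq (c := c x y - x) hx hx' ?_ ?_
  · rw [add_sub_cancel]
    exact h1
  · rw [hc x x' y, add_sub_cancel]
    exact h2

lemma cnt_snd {p : ℕ} (c : ℕ → ℕ → ℤ) (hc : ∀ x y y', c x y - y = c x y' - y') :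
    cnt p (fun x y => (p : ℤ) ∣ c x y) ≤ p := by
  refine card_snd fun x x' y hx hx' h1 h2 => ?_
  refine uniq (c := c x x' - x') hx hx' ?_ ?_
  · rw [add_sub_cancel]
    exact h1
  · rw [hc x x' y, add_sub_cancel]
    exact h2

lemma cnt_neg {p : ℕ} (c : ℕ → ℕ → ℤ) :
    cnt p (fun x y => (p : ℤ) ∣ c x y) = cnt p (fun x y => (p : ℤ) ∣ -c x y) := by
  exact cnt_congr p fun x y => (dvd_neg).symm

lemma cnt_nat {p : ℕ} (c : ℕ → ℕ → ℕ) :
    cnt p (fun x y => p ∣ c x y) = cnt p (fun x y => (p : ℤ) ∣ (c x y : ℤ)) := by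
  exact cnt_congr p fun x y => Int.natCast_dvd_natCast.symm

lemma fewA (h p : ℕ) : bad (QA h) p ≤ 6 * p := by
  rw [bad_eq]
  exact six (P1 := fun x _ => p ∣ x) (P2 := fun x _ => p ∣ x + h) (P3 := fun x y => p ∣ x + y)
    (P4 := fun x y => p ∣ x + y + h) (P5 := fun x y => p ∣ x + 2 * y)
    (P6 := fun x y => p ∣ x + 2 * y + h)
    (by rw [cnt_nat (fun x _ => x)]; exact cnt_fst _ (by intros; push_cast; ring))
    (by rw [cnt_nat (fun x _ => x + h)]; exact cnt_fst _ (by intros; push_cast; ring))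
    (by rw [cnt_nat (fun x y => x + y)]; exact cnt_fst _ (by intros; push_cast; ring))
    (by rw [cnt_nat (fun x y => x + y + h)]; exact cnt_fst _ (by intros; push_cast; ring))
    (by rw [cnt_nat (fun x y => x + 2 * y)]; exact cnt_fst _ (by intros; push_cast; ring))
    (by rw [cnt_nat (fun x y => x + 2 * y + h)]; exact cnt_fst _ (by intros; push_cast; ring))

lemma fewT (h n p : ℕ) : bad (QT h n) p ≤ 6 * p := by
  rw [bad_eq]
  exact six (P1 := fun x _ => p ∣ x) (P2 := fun x _ => p ∣ x + h) (P3 := fun _ y => p ∣ y)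
    (P4 := fun _ y => p ∣ y + h) (P5 := fun x y => (p : ℤ) ∣ (n : ℤ) - x - y)
    (P6 := fun x y => (p : ℤ) ∣ (n : ℤ) - x - y + h)
    (by rw [cnt_nat (fun x _ => x)]; exact cnt_fst _ (by intros; push_cast; ring))
    (by rw [cnt_nat (fun x _ => x + h)]; exact cnt_fst _ (by intros; push_cast; ring))
    (by rw [cnt_nat (fun _ y => y)]; exact cnt_snd _ (by intros; push_cast; ring))
    (by rw [cnt_nat (fun _ y => y + h)]; exact cnt_snd _ (by intros; push_cast; ring))
    (by rw [cnt_neg]; exact cnt_fst _ (by intros; ring))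
    (by rw [cnt_neg]; exact cnt_fst _ (by intros; ring))

lemma perA (h : ℕ) (p x y : ℕ) : QA h p x y ↔ QA h p (x % p) (y % p) := by
  unfold QA
  have hx : x ≡ x % p [MOD p] := (Nat.mod_modEq x p).symm
  have hy : y ≡ y % p [MOD p] := (Nat.mod_modEq y p).symm
  have hh : h ≡ h [MOD p] := rfl
  rw [hx.dvd_iff dvd_rfl, (hx.add hh).dvd_iff dvd_rfl, (hx.add hy).dvd_iff dvd_rfl,
    ((hx.add hy).add hh).dvd_iff dvd_rfl, (hx.add (hy.mul_left 2)).dvd_iff dvd_rfl,
    ((hx.add (hy.mul_left 2)).add hh).dvd_iff dvd_rfl]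

lemma perT (h n : ℕ) (p x y : ℕ) : QT h n p x y ↔ QT h n p (x % p) (y % p) := by
  unfold QT
  have hx : x ≡ x % p [MOD p] := (Nat.mod_modEq x p).symm
  have hy : y ≡ y % p [MOD p] := (Nat.mod_modEq y p).symm
  have hh : h ≡ h [MOD p] := rfl
  have key : ∀ c : ℤ, (p : ℤ) ∣ (n : ℤ) - x - y + c ↔
      (p : ℤ) ∣ (n : ℤ) - (x % p : ℕ) - (y % p : ℕ) + c := by
    intro c
    have e : (n : ℤ) - x - y + c = ((n : ℤ) - (x % p : ℕ) - (y % p : ℕ) + c) -
        (p : ℤ) * ((x / p : ℕ) + (y / p : ℕ)) := by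
      have h1 : (x : ℤ) = (p : ℤ) * (x / p : ℕ) + (x % p : ℕ) := by
        exact_mod_cast (Nat.div_add_mod x p).symm
      have h2 : (y : ℤ) = (p : ℤ) * (y / p : ℕ) + (y % p : ℕ) := by
        exact_mod_cast (Nat.div_add_mod y p).symm
      linear_combination -h1 - h2
    rw [e]
    exact dvd_sub_left (dvd_mul_right _ _)
  have k0 := key 0
  rw [add_zero, add_zero] at k0
  rw [hx.dvd_iff dvd_rfl, (hx.add hh).dvd_iff dvd_rfl, hy.dvd_iff dvd_rfl,
    (hy.add hh).dvd_iff dvd_rfl, k0, key h]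

/-- an admissible pair -/
lemma lt_of_ex {Q : ℕ → ℕ → ℕ → Prop} {p x y : ℕ} (hx : x < p) (hy : y < p) (h : ¬ Q p x y) :
    bad Q p < p ^ 2 := by
  rw [bad_eq]
  unfold cnt
  have h1 : ((range p ×ˢ range p).filter (fun r => Q p r.1 r.2)) ⊂ range p ×ˢ range p := by
    rw [filter_ssubset]
    exact ⟨(x, y), by rw [mem_product, mem_range, mem_range]; exact ⟨hx, hy⟩, h⟩
  have h2 := card_lt_card h1
  rwa [card_product, card_range, ← sq] at h2

lemma exT {h n p : ℕ} (hp : 0 < p) (x y : ZMod p) (h1 : x ≠ 0) (h2 : x + h ≠ 0) (h3 : y ≠ 0)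
    (h4 : y + h ≠ 0) (h5 : (n : ZMod p) - x - y ≠ 0) (h6 : (n : ZMod p) - x - y + h ≠ 0) :
    bad (QT h n) p < p ^ 2 := by
  have : NeZero p := ⟨hp.ne'⟩
  refine lt_of_ex (x := x.val) (y := y.val) (ZMod.val_lt x) (ZMod.val_lt y) ?_
  unfold QT
  rw [← ZMod.natCast_eq_zero_iff, ← ZMod.natCast_eq_zero_iff, ← ZMod.natCast_eq_zero_iff,
    ← ZMod.natCast_eq_zero_iff, ← ZMod.intCast_zmod_eq_zero_iff_dvd,
    ← ZMod.intCast_zmod_eq_zero_iff_dvd]
  push_cast
  rw [ZMod.natCast_zmod_val, ZMod.natCast_zmod_val]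
  tauto

theorem t_GOOD : S_GOOD := by
  refine ⟨fun h => ⟨perA h, fun p _ => fewA h p⟩, fun h n => ⟨perT h n, fun p _ => fewT h n p⟩,
    ?_, ?_⟩
  · intro h hh p hp
    rcases hp.eq_two_or_odd' with rfl | hodd
    · refine lt_of_ex (x := 1) (y := 0) (by norm_num) (by norm_num) ?_
      unfold QA
      obtain ⟨m, rfl⟩ := hh
      omega
    · have h3 : 3 ≤ p := by
        have := hp.two_le
        obtain ⟨m, hm⟩ := hodd
        omega
      have hn : ∀ m, 0 < m → m < 3 → ¬ p ∣ m := fun m h0 h1 h2 =>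
        absurd (Nat.le_of_dvd h0 h2) (by omega)
      by_cases h1 : p ∣ 1 + h
      · refine lt_of_ex (x := 2) (y := 0) (by omega) (by omega) ?_
        have h2 : ¬ p ∣ 2 + h := by
          intro h2
          have := (Nat.dvd_sub h2 h1)
          have e : 2 + h - (1 + h) = 1 := by omega
          rw [e] at this
          exact hn 1 (by norm_num) (by norm_num) this
        unfold QA
        have h4 := hn 2 (by norm_num) (by norm_num)
        simp only [add_zero, mul_zero]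
        tauto
      · refine lt_of_ex (x := 1) (y := 0) (by omega) (by omega) ?_
        unfold QA
        have h4 := hn 1 (by norm_num) (by norm_num)
        simp only [add_zero, mul_zero]
        tauto
  · intro h n hh hn h3 p hp
    by_cases hp7 : 7 ≤ p
    · calc bad (QT h n) p ≤ 6 * p := fewT h n p
        _ < p * p := Nat.mul_lt_mul_of_pos_right (by omega) hp.pos
        _ = p ^ 2 := (sq p).symm
    · have h2 := hp.two_le
      have : p = 2 ∨ p = 3 ∨ p = 4 ∨ p = 5 ∨ p = 6 := by omega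
      rcases this with rfl | rfl | rfl | rfl | rfl
      · have d : ∀ h n : ZMod 2, h = 0 → n = 1 → ∃ x y : ZMod 2, x ≠ 0 ∧ x + h ≠ 0 ∧ y ≠ 0 ∧
            y + h ≠ 0 ∧ n - x - y ≠ 0 ∧ n - x - y + h ≠ 0 := by decide
        obtain ⟨x, y, a1, a2, a3, a4, a5, a6⟩ := d h n
          ((ZMod.natCast_eq_zero_iff h 2).2 hh.two_dvd) (by
            rw [← Nat.cast_one, ZMod.natCast_eq_natCast_iff]
            exact Nat.odd_iff.1 hn)
        exact exT (by norm_num) x y a1 a2 a3 a4 a5 a6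
      · have d : ∀ h n : ZMod 3, (h = 0 ∨ n = 0) → ∃ x y : ZMod 3, x ≠ 0 ∧ x + h ≠ 0 ∧ y ≠ 0 ∧
            y + h ≠ 0 ∧ n - x - y ≠ 0 ∧ n - x - y + h ≠ 0 := by decide
        obtain ⟨x, y, a1, a2, a3, a4, a5, a6⟩ := d h n
          (h3.imp (ZMod.natCast_eq_zero_iff h 3).2 (ZMod.natCast_eq_zero_iff n 3).2)
        exact exT (by norm_num) x y a1 a2 a3 a4 a5 a6
      · exact absurd hp (by norm_num)
      · have d : ∀ h n : ZMod 5, ∃ x y : ZMod 5, x ≠ 0 ∧ x + h ≠ 0 ∧ y ≠ 0 ∧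
            y + h ≠ 0 ∧ n - x - y ≠ 0 ∧ n - x - y + h ≠ 0 := by decide
        obtain ⟨x, y, a1, a2, a3, a4, a5, a6⟩ := d h n
        exact exT (by norm_num) x y a1 a2 a3 a4 a5 a6
      · exact absurd hp (by norm_num)

end Pool.Agent.E8helper7.TP
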