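import Pool.Agent.E8helper16.TP.StmA

/-!
# Project TP, piece TP-9 (PP): proper prime powers are negligible
-/

set_option autoImplicit false

namespace Pool.Agent.E8helper7.TP

open Finset Filter
open Pool.Agent.E8helper16.TP
open ArithmeticFunction (vonMangoldt)

/-- the von Mangoldt function outside the primes -/
noncomputable def np (n : ℕ) : ℝ := if n.Prime then 0 else vonMangoldt n

lemma np_nonneg (n : ℕ) : 0 ≤ np n := by
  unfold np
  split_ifs
  · exact le_rfl
  · exact ArithmeticFunction.vonMangoldt_nonneg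

lemma sum_np {M : ℕ} (hM : 1 ≤ M) : ∑ n ∈ Ioc 0 M, np n ≤ 2 * √(M : ℝ) * Real.log M := by
  have h1 := Chebyshev.psi_sub_theta_le (x := (M : ℝ)) (by exact_mod_cast hM)
  rw [Chebyshev.psi_sub_theta_eq_sum_not_prime, Nat.floor_natCast, sum_filter] at h1
  refine le_trans (le_of_eq ?_) h1
  refine sum_congr rfl fun n _ => ?_
  unfold np
  by_cases h : n.Prime
  · rw [if_pos h, if_neg (not_not.2 h)]
  · rw [if_neg h, if_pos h]

theorem t_PP : S_PP := by
  intro U
  have h1 : ∀ᶠ x : ℝ in atTop, 24 * 2 ^ (U + 2) * Real.log x ^ (U + 2) ≤ x := by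
    have h := Real.isLittleO_pow_log_id_atTop (n := U + 2)
    have hc : (0 : ℝ) < 1 / (24 * 2 ^ (U + 2)) := by positivity
    have h2 := h.def hc
    filter_upwards [h2, eventually_ge_atTop 1] with x hx hx1
    rw [Real.norm_eq_abs, abs_of_nonneg (pow_nonneg (Real.log_nonneg hx1) _), id,
      Real.norm_eq_abs, abs_of_nonneg (by linarith), div_mul_eq_mul_div, one_mul,
      le_div_iff₀ (by positivity)] at hx
    linarith
  have h2 : ∀ᶠ N : ℕ in atTop, 24 * 2 ^ (U + 2) * Real.log (√(N : ℝ)) ^ (U + 2) ≤ √(N : ℝ) :=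
    (Real.tendsto_sqrt_atTop.comp tendsto_natCast_atTop_atTop).eventually h1
  obtain ⟨N₀, hN₀⟩ := eventually_atTop.1 (h2.and (eventually_ge_atTop 3))
  refine ⟨N₀, fun N hN h hh => ?_⟩
  obtain ⟨h3, h4⟩ := hN₀ N hN
  rw [mem_Icc] at hh
  have hN3 : (3 : ℝ) ≤ N := by exact_mod_cast h4
  have hlog : 0 < Real.log N := Real.log_pos (by linarith)
  set L : ℝ := Real.log ((2 * N : ℕ) : ℝ) with hL
  have hL0 : 0 ≤ L := Real.log_natCast_nonneg _
  have hvm : ∀ m : ℕ, m ≤ 2 * N → vonMangoldt m ≤ L := by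
    intro m hm
    refine ArithmeticFunction.vonMangoldt_le_log.trans ?_
    rcases Nat.eq_zero_or_pos m with rfl | hm0
    · rw [Nat.cast_zero, Real.log_zero]
      exact hL0
    · exact Real.log_le_log (by exact_mod_cast hm0) (by exact_mod_cast hm)
  set B : ℝ := ∑ n ∈ Ioc 0 (2 * N), np n with hB
  have hB0 : 0 ≤ B := sum_nonneg fun n _ => np_nonneg n
  have hBle : B ≤ 2 * √((2 * N : ℕ) : ℝ) * L := sum_np (by omega)
  have s1 : ∑ x ∈ Icc 1 N, np x ≤ B := by
    refine sum_le_sum_of_subset_of_nonneg ?_ fun n _ _ => np_nonneg n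
    intro x hx
    rw [mem_Icc] at hx
    rw [mem_Ioc]
    omega
  have s2 : ∑ x ∈ Icc 1 N, np (x + h) ≤ B := by
    have e : ∑ x ∈ Icc 1 N, np (x + h) = ∑ m ∈ (Icc 1 N).image (fun x => x + h), np m := by
      rw [sum_image]
      intro a _ b _ hab
      exact Nat.add_right_cancel hab
    rw [e]
    refine sum_le_sum_of_subset_of_nonneg ?_ fun n _ _ => np_nonneg n
    intro x hx
    rw [mem_image] at hx
    obtain ⟨y, hy, rfl⟩ := hx
    rw [mem_Icc] at hy
    rw [mem_Ioc]
    omega
  have hterm : ∀ x ∈ Icc 1 N, (if x.Prime ∧ (x + h).Prime then 0 else ff h x) ≤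
      np x * L + L * np (x + h) := by
    intro x hx
    rw [mem_Icc] at hx
    have v1 := hvm x (by omega)
    have v2 := hvm (x + h) (by omega)
    have w1 : 0 ≤ vonMangoldt x := ArithmeticFunction.vonMangoldt_nonneg
    have w2 : 0 ≤ vonMangoldt (x + h) := ArithmeticFunction.vonMangoldt_nonneg
    have t1 : 0 ≤ np x * L := mul_nonneg (np_nonneg _) hL0
    have t2 : 0 ≤ L * np (x + h) := mul_nonneg hL0 (np_nonneg _)
    split_ifs with hc
    · exact add_nonneg t1 t2
    · unfold ff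
      by_cases hx1 : x.Prime
      · have hx2 : ¬ (x + h).Prime := fun h' => hc ⟨hx1, h'⟩
        have e : np (x + h) = vonMangoldt (x + h) := by
          unfold np
          rw [if_neg hx2]
        rw [e] at t2 ⊢
        have := mul_le_mul_of_nonneg_right v1 w2
        linarith
      · have e : np x = vonMangoldt x := by
          unfold np
          rw [if_neg hx1]
        rw [e] at t1 ⊢
        have := mul_le_mul_of_nonneg_left v2 w1
        linarith
  have hsum : ∑ x ∈ Icc 1 N, (if x.Prime ∧ (x + h).Prime then 0 else ff h x) ≤ 2 * (L * B) := by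
    refine (sum_le_sum hterm).trans ?_
    rw [sum_add_distrib, ← sum_mul, ← mul_sum]
    have := mul_le_mul_of_nonneg_right s1 hL0
    have := mul_le_mul_of_nonneg_left s2 hL0
    linarith
  have hL2 : L ≤ 2 * Real.log N := by
    have e : 2 * Real.log N = Real.log ((N : ℝ) ^ 2) := by
      rw [Real.log_pow]
      push_cast
      ring
    rw [hL, e]
    apply Real.log_le_log
    · push_cast
      linarith
    · push_cast
      nlinarith
  have hsq : √((2 * N : ℕ) : ℝ) ≤ 3 / 2 * √(N : ℝ) := by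
    have e : 3 / 2 * √(N : ℝ) = √((9 / 4 : ℝ) * N) := by
      rw [Real.sqrt_mul (by norm_num), show (9 / 4 : ℝ) = (3 / 2) ^ 2 by norm_num,
        Real.sqrt_sq (by norm_num)]
    rw [e]
    apply Real.sqrt_le_sqrt
    push_cast
    linarith
  have hsN : 0 < √(N : ℝ) := Real.sqrt_pos.2 (by linarith)
  have hLB : 2 * (L * B) ≤ 24 * √(N : ℝ) * Real.log N ^ 2 := by
    have a1 : B ≤ 2 * (3 / 2 * √(N : ℝ)) * (2 * Real.log N) := by
      refine hBle.trans ?_
      gcongr
    have a2 : L * B ≤ (2 * Real.log N) * (2 * (3 / 2 * √(N : ℝ)) * (2 * Real.log N)) := by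
      gcongr
    calc 2 * (L * B) ≤ 2 * ((2 * Real.log N) * (2 * (3 / 2 * √(N : ℝ)) * (2 * Real.log N))) := by
          linarith
      _ = 24 * √(N : ℝ) * Real.log N ^ 2 := by ring
  refine hsum.trans (hLB.trans ?_)
  rw [le_div_iff₀ (pow_pos hlog U)]
  have hls : Real.log (√(N : ℝ)) = Real.log N / 2 := Real.log_sqrt (by linarith)
  rw [hls, div_pow] at h3
  have h5 : 24 * Real.log N ^ (U + 2) ≤ √(N : ℝ) := by
    have e : 24 * 2 ^ (U + 2) * (Real.log N ^ (U + 2) / 2 ^ (U + 2)) =
        24 * Real.log N ^ (U + 2) := by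
      field_simp
    rwa [e] at h3
  calc 24 * √(N : ℝ) * Real.log N ^ 2 * Real.log N ^ U
      = √(N : ℝ) * (24 * Real.log N ^ (U + 2)) := by rw [pow_add]; ring
    _ ≤ √(N : ℝ) * √(N : ℝ) := by gcongr
    _ = N := Real.mul_self_sqrt (by linarith)

end Pool.Agent.E8helper7.TP
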